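import Mathlib

/-!
# The argument principle for rectangles, with a weight
-/

set_option autoImplicit false

namespace Pool.Agent.H72.ZS

open Complex Set MeasureTheory Filter Topology

/-- The integral of `G` over the boundary of the rectangle with corners `a`, `b`,
counterclockwise. -/
noncomputable def rectInt (G : ℂ → ℂ) (a b : ℂ) : ℂ :=
  (∫ x : ℝ in a.re..b.re, G (x + a.im * I)) - (∫ x : ℝ in a.re..b.re, G (x + b.im * I)) +
    I • (∫ y : ℝ in a.im..b.im, G (b.re + y * I)) - I • ∫ y : ℝ in a.im..b.im, G (a.re + y * I)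

/-- The closed rectangle. -/
def RC (a b : ℂ) : Set ℂ := Icc a.re b.re ×ℂ Icc a.im b.im

/-- The open rectangle. -/
def RO (a b : ℂ) : Set ℂ := Ioo a.re b.re ×ℂ Ioo a.im b.im

theorem mem_RC {a b z : ℂ} : z ∈ RC a b ↔ (a.re ≤ z.re ∧ z.re ≤ b.re) ∧ a.im ≤ z.im ∧ z.im ≤ b.im := by
  unfold RC
  rw [mem_reProdIm, mem_Icc, mem_Icc]

theorem mem_RO {a b z : ℂ} : z ∈ RO a b ↔ (a.re < z.re ∧ z.re < b.re) ∧ a.im < z.im ∧ z.im < b.im := by
  unfold RO
  rw [mem_reProdIm, mem_Ioo, mem_Ioo]

theorem RO_sub_RC {a b : ℂ} : RO a b ⊆ RC a b := by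
  intro z hz
  rw [mem_RO] at hz
  rw [mem_RC]
  exact ⟨⟨hz.1.1.le, hz.1.2.le⟩, hz.2.1.le, hz.2.2.le⟩

/-! ### the four sides -/

section sides

variable {a b : ℂ} (h1 : a.re < b.re) (h2 : a.im < b.im)

include h1 h2

theorem side_bot {x : ℝ} (hx : x ∈ Icc a.re b.re) : (x + a.im * I : ℂ) ∈ RC a b \ RO a b := by
  rw [mem_diff, mem_RC, mem_RO]
  have e1 : (x + a.im * I : ℂ).re = x := by simp
  have e2 : (x + a.im * I : ℂ).im = a.im := by simp
  rw [e1, e2]
  exact ⟨⟨hx, le_refl _, h2.le⟩, fun h => lt_irrefl _ h.2.1⟩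

theorem side_top {x : ℝ} (hx : x ∈ Icc a.re b.re) : (x + b.im * I : ℂ) ∈ RC a b \ RO a b := by
  rw [mem_diff, mem_RC, mem_RO]
  have e1 : (x + b.im * I : ℂ).re = x := by simp
  have e2 : (x + b.im * I : ℂ).im = b.im := by simp
  rw [e1, e2]
  exact ⟨⟨hx, h2.le, le_refl _⟩, fun h => lt_irrefl _ h.2.2⟩

theorem side_right {y : ℝ} (hy : y ∈ Icc a.im b.im) : (b.re + y * I : ℂ) ∈ RC a b \ RO a b := by
  rw [mem_diff, mem_RC, mem_RO]
  have e1 : (b.re + y * I : ℂ).re = b.re := by simp
  have e2 : (b.re + y * I : ℂ).im = y := by simp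
  rw [e1, e2]
  exact ⟨⟨⟨h1.le, le_refl _⟩, hy⟩, fun h => lt_irrefl _ h.1.2⟩

theorem side_left {y : ℝ} (hy : y ∈ Icc a.im b.im) : (a.re + y * I : ℂ) ∈ RC a b \ RO a b := by
  rw [mem_diff, mem_RC, mem_RO]
  have e1 : (a.re + y * I : ℂ).re = a.re := by simp
  have e2 : (a.re + y * I : ℂ).im = y := by simp
  rw [e1, e2]
  exact ⟨⟨⟨le_refl _, h1.le⟩, hy⟩, fun h => lt_irrefl _ h.1.1⟩

/-- Functions which agree on the boundary have the same integral. -/
theorem rectInt_congr {G H : ℂ → ℂ} (h : ∀ z ∈ RC a b \ RO a b, G z = H z) :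
    rectInt G a b = rectInt H a b := by
  unfold rectInt
  congr 1
  · congr 1
    · congr 1
      · apply intervalIntegral.integral_congr
        intro x hx
        rw [uIcc_of_le h1.le] at hx
        exact h _ (side_bot h1 h2 hx)
      · apply intervalIntegral.integral_congr
        intro x hx
        rw [uIcc_of_le h1.le] at hx
        exact h _ (side_top h1 h2 hx)
    · congr 1
      apply intervalIntegral.integral_congr
      intro x hx
      rw [uIcc_of_le h2.le] at hx
      exact h _ (side_right h1 h2 hx)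
  · congr 1
    apply intervalIntegral.integral_congr
    intro x hx
    rw [uIcc_of_le h2.le] at hx
    exact h _ (side_left h1 h2 hx)

theorem ii_bot {G : ℂ → ℂ} (h : ContinuousOn G (RC a b \ RO a b)) :
    IntervalIntegrable (fun x : ℝ => G (x + a.im * I)) volume a.re b.re := by
  apply ContinuousOn.intervalIntegrable
  rw [uIcc_of_le h1.le]
  exact h.comp (by fun_prop) (fun x hx => side_bot h1 h2 hx)

theorem ii_top {G : ℂ → ℂ} (h : ContinuousOn G (RC a b \ RO a b)) :
    IntervalIntegrable (fun x : ℝ => G (x + b.im * I)) volume a.re b.re := by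
  apply ContinuousOn.intervalIntegrable
  rw [uIcc_of_le h1.le]
  exact h.comp (by fun_prop) (fun x hx => side_top h1 h2 hx)

theorem ii_right {G : ℂ → ℂ} (h : ContinuousOn G (RC a b \ RO a b)) :
    IntervalIntegrable (fun y : ℝ => G (b.re + y * I)) volume a.im b.im := by
  apply ContinuousOn.intervalIntegrable
  rw [uIcc_of_le h2.le]
  exact h.comp (by fun_prop) (fun x hx => side_right h1 h2 hx)

theorem ii_left {G : ℂ → ℂ} (h : ContinuousOn G (RC a b \ RO a b)) :
    IntervalIntegrable (fun y : ℝ => G (a.re + y * I)) volume a.im b.im := by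
  apply ContinuousOn.intervalIntegrable
  rw [uIcc_of_le h2.le]
  exact h.comp (by fun_prop) (fun x hx => side_left h1 h2 hx)

theorem rectInt_sub {G H : ℂ → ℂ} (hG : ContinuousOn G (RC a b \ RO a b))
    (hH : ContinuousOn H (RC a b \ RO a b)) :
    rectInt (fun z => G z - H z) a b = rectInt G a b - rectInt H a b := by
  unfold rectInt
  rw [intervalIntegral.integral_sub (ii_bot h1 h2 hG) (ii_bot h1 h2 hH),
    intervalIntegral.integral_sub (ii_top h1 h2 hG) (ii_top h1 h2 hH),
    intervalIntegral.integral_sub (ii_right h1 h2 hG) (ii_right h1 h2 hH),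
    intervalIntegral.integral_sub (ii_left h1 h2 hG) (ii_left h1 h2 hH)]
  simp only [smul_eq_mul]
  ring

theorem rectInt_sum {ι : Type} (s : Finset ι) {G : ι → ℂ → ℂ}
    (hG : ∀ i ∈ s, ContinuousOn (G i) (RC a b \ RO a b)) :
    rectInt (fun z => ∑ i ∈ s, G i z) a b = ∑ i ∈ s, rectInt (G i) a b := by
  unfold rectInt
  rw [intervalIntegral.integral_finsetSum (fun i hi => ii_bot h1 h2 (hG i hi)),
    intervalIntegral.integral_finsetSum (fun i hi => ii_top h1 h2 (hG i hi)),
    intervalIntegral.integral_finsetSum (fun i hi => ii_right h1 h2 (hG i hi)),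
    intervalIntegral.integral_finsetSum (fun i hi => ii_left h1 h2 (hG i hi))]
  rw [Finset.sum_sub_distrib, Finset.sum_add_distrib, Finset.sum_sub_distrib, ← Finset.smul_sum,
    ← Finset.smul_sum]

end sides

theorem rectInt_const_mul {a b : ℂ} (c : ℂ) (G : ℂ → ℂ) :
    rectInt (fun z => c * G z) a b = c * rectInt G a b := by
  unfold rectInt
  rw [intervalIntegral.integral_const_mul, intervalIntegral.integral_const_mul,
    intervalIntegral.integral_const_mul, intervalIntegral.integral_const_mul]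
  simp only [smul_eq_mul]
  ring

/-! ### the winding number -/

theorem log_neg_of_im_neg {w : ℂ} (h : w.im < 0) : log (-w) = log w + Real.pi * I := by
  unfold Complex.log
  rw [norm_neg, arg_neg_eq_arg_add_pi_of_im_neg h]
  push_cast
  ring

theorem log_neg_of_im_pos {w : ℂ} (h : 0 < w.im) : log (-w) = log w - Real.pi * I := by
  unfold Complex.log
  rw [norm_neg, arg_neg_eq_arg_sub_pi_of_im_pos h]
  push_cast
  ring

theorem int_horiz {a b r : ℂ} {c : ℝ} (h : c ≠ r.im) :
    ∫ x : ℝ in a.re..b.re, 1 / ((x + c * I : ℂ) - r) =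
      log ((b.re + c * I : ℂ) - r) - log ((a.re + c * I : ℂ) - r) := by
  have hne : ∀ x : ℝ, ((x + c * I : ℂ) - r) ∈ slitPlane := by
    intro x
    rw [mem_slitPlane_iff]
    right
    simp only [sub_im, add_im, ofReal_im, mul_im, ofReal_re, I_im, mul_one, I_re, mul_zero,
      add_zero, zero_add]
    exact sub_ne_zero.2 h
  apply intervalIntegral.integral_eq_sub_of_hasDerivAt (f := fun x : ℝ => log ((x + c * I : ℂ) - r))
  · intro x _
    have hd : HasDerivAt (fun x : ℝ => ((x + c * I : ℂ) - r)) 1 x :=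
      ((hasDerivAt_id x).ofReal_comp.add_const _).sub_const _
    exact hd.clog_real (hne x)
  · apply ContinuousOn.intervalIntegrable
    intro x _
    have : ((x + c * I : ℂ) - r) ≠ 0 := slitPlane_ne_zero (hne x)
    apply ContinuousAt.continuousWithinAt
    have h3 : ContinuousAt (fun x : ℝ => ((x + c * I : ℂ) - r)) x := by fun_prop
    exact continuousAt_const.div h3 this

theorem int_right {a b r : ℂ} (h : r.re < b.re) :
    I • ∫ y : ℝ in a.im..b.im, 1 / ((b.re + y * I : ℂ) - r) =
      log ((b.re + b.im * I : ℂ) - r) - log ((b.re + a.im * I : ℂ) - r) := by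
  have hne : ∀ y : ℝ, ((b.re + y * I : ℂ) - r) ∈ slitPlane := by
    intro y
    rw [mem_slitPlane_iff]
    left
    simp only [sub_re, add_re, ofReal_re, mul_re, I_re, mul_zero, ofReal_im, I_im, mul_one,
      sub_self, add_zero]
    linarith
  rw [smul_eq_mul, ← intervalIntegral.integral_const_mul]
  apply intervalIntegral.integral_eq_sub_of_hasDerivAt
    (f := fun y : ℝ => log ((b.re + y * I : ℂ) - r))
  · intro y _
    have hd : HasDerivAt (fun y : ℝ => ((b.re + y * I : ℂ) - r)) I y := by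
      have := (((hasDerivAt_id y).ofReal_comp.mul_const I).const_add (b.re : ℂ)).sub_const r
      simpa using this
    have h3 := hd.clog_real (hne y)
    have h4 : I * (1 / ((b.re + y * I : ℂ) - r)) = I / ((b.re + y * I : ℂ) - r) := by
      rw [mul_one_div]
    rw [h4]
    exact h3
  · apply ContinuousOn.intervalIntegrable
    intro y _
    have : ((b.re + y * I : ℂ) - r) ≠ 0 := slitPlane_ne_zero (hne y)
    apply ContinuousAt.continuousWithinAt
    have h3 : ContinuousAt (fun y : ℝ => ((b.re + y * I : ℂ) - r)) y := by fun_prop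
    exact continuousAt_const.mul (continuousAt_const.div h3 this)

theorem int_left {a b r : ℂ} (h : a.re < r.re) :
    I • ∫ y : ℝ in a.im..b.im, 1 / ((a.re + y * I : ℂ) - r) =
      log (-((a.re + b.im * I : ℂ) - r)) - log (-((a.re + a.im * I : ℂ) - r)) := by
  have hne : ∀ y : ℝ, -((a.re + y * I : ℂ) - r) ∈ slitPlane := by
    intro y
    rw [mem_slitPlane_iff]
    left
    simp only [neg_re, sub_re, add_re, ofReal_re, mul_re, I_re, mul_zero, ofReal_im, I_im, mul_one,
      sub_self, add_zero]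
    linarith
  rw [smul_eq_mul, ← intervalIntegral.integral_const_mul]
  apply intervalIntegral.integral_eq_sub_of_hasDerivAt
    (f := fun y : ℝ => log (-((a.re + y * I : ℂ) - r)))
  · intro y _
    have hd : HasDerivAt (fun y : ℝ => -((a.re + y * I : ℂ) - r)) (-I) y := by
      have := ((((hasDerivAt_id y).ofReal_comp.mul_const I).const_add (a.re : ℂ)).sub_const r).neg
      rw [ofReal_one, one_mul] at this
      exact this
    have h3 := hd.clog_real (hne y)
    have h4 : I * (1 / ((a.re + y * I : ℂ) - r)) = -I / -((a.re + y * I : ℂ) - r) := by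
      rw [neg_div_neg_eq, mul_one_div]
    rw [h4]
    exact h3
  · apply ContinuousOn.intervalIntegrable
    intro y _
    have : ((a.re + y * I : ℂ) - r) ≠ 0 := by
      have := slitPlane_ne_zero (hne y)
      exact neg_ne_zero.1 this
    apply ContinuousAt.continuousWithinAt
    have h3 : ContinuousAt (fun y : ℝ => ((a.re + y * I : ℂ) - r)) y := by fun_prop
    exact continuousAt_const.mul (continuousAt_const.div h3 this)

/-- The winding number of a rectangle around an inner point. -/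
theorem rectInt_inv {a b r : ℂ} (hr : r ∈ RO a b) :
    rectInt (fun z => 1 / (z - r)) a b = 2 * Real.pi * I := by
  rw [mem_RO] at hr
  obtain ⟨⟨h1, h2⟩, h3, h4⟩ := hr
  unfold rectInt
  rw [int_horiz h3.ne, int_horiz h4.ne', int_right h2, int_left h1]
  have e1 : log (-((a.re + a.im * I : ℂ) - r)) = log ((a.re + a.im * I : ℂ) - r) + Real.pi * I := by
    apply log_neg_of_im_neg
    simp only [sub_im, add_im, ofReal_im, mul_im, ofReal_re, I_im, mul_one, I_re, mul_zero,
      add_zero, zero_add]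
    linarith
  have e2 : log (-((a.re + b.im * I : ℂ) - r)) = log ((a.re + b.im * I : ℂ) - r) - Real.pi * I := by
    apply log_neg_of_im_pos
    simp only [sub_im, add_im, ofReal_im, mul_im, ofReal_re, I_im, mul_one, I_re, mul_zero,
      add_zero, zero_add]
    linarith
  rw [e1, e2]
  ring

/-! ### local form near a zero -/

theorem analyticAt_dslope {F : ℂ → ℂ} {r : ℂ} (hF : AnalyticAt ℂ F r) :
    AnalyticAt ℂ (dslope F r) r := by
  obtain ⟨p, hp⟩ := hF
  exact ⟨p.fslope, hp.has_fpower_series_dslope_fslope⟩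

theorem local_form {f F : ℂ → ℂ} {r : ℂ} (hf : AnalyticAt ℂ f r) (hF : AnalyticAt ℂ F r)
    (hne : analyticOrderAt f r ≠ ⊤) :
    ∃ h : ℂ → ℂ, AnalyticAt ℂ h r ∧ ∀ᶠ z in 𝓝[≠] r,
      F z * (deriv f z / f z) - (analyticOrderNatAt f r : ℂ) * F r * (1 / (z - r)) = h z := by
  obtain ⟨g, hg, hg0, hfg⟩ := hf.analyticOrderAt_ne_top.1 hne
  set n := analyticOrderNatAt f r with hn
  refine ⟨fun z => (n : ℂ) * dslope F r z + F z * (deriv g z / g z), ?_, ?_⟩
  · exact (analyticAt_const.mul (analyticAt_dslope hF)).add (hF.mul (hg.deriv.div hg hg0))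
  · have e1 : ∀ᶠ z in 𝓝 r, AnalyticAt ℂ g z := hg.eventually_analyticAt
    have e2 : ∀ᶠ z in 𝓝 r, g z ≠ 0 := hg.continuousAt.eventually_ne hg0
    have e3 : ∀ᶠ z in 𝓝 r, f =ᶠ[𝓝 z] fun w => (w - r) ^ n • g w := hfg.eventually_nhds
    rw [eventually_nhdsWithin_iff]
    filter_upwards [e1, e2, e3] with z h1 h2 h3 hz
    have hz' : z - r ≠ 0 := sub_ne_zero.2 hz
    have hd1 : DifferentiableAt ℂ (fun w : ℂ => (w - r) ^ n) z := by fun_prop
    have hd2 : DifferentiableAt ℂ g z := h1.differentiableAt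
    have h4 : deriv f z / f z = (n : ℂ) / (z - r) + deriv g z / g z := by
      have h5 : deriv f z = deriv (fun w => (w - r) ^ n * g w) z := h3.deriv_eq
      have h6 : f z = (z - r) ^ n * g z := h3.self_of_nhds
      have h7 := logDeriv_mul (f := fun w : ℂ => (w - r) ^ n) (g := g) z (pow_ne_zero n hz') h2
        hd1 hd2
      have h8 : deriv (fun w : ℂ => (w - r) ^ n) z = n * (z - r) ^ (n - 1) := by
        have := ((hasDerivAt_id z).sub_const r).pow n
        rw [show (fun w : ℂ => (w - r) ^ n) = (fun x => id x - r) ^ n from rfl, this.deriv]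
        simp
      rw [logDeriv_apply, logDeriv_apply, logDeriv_apply, h8, ← h5, ← h6] at h7
      rw [h7]
      congr 1
      rcases Nat.eq_zero_or_pos n with h0 | h0
      · rw [h0]; simp
      · obtain ⟨k, hk⟩ : ∃ k, n = k + 1 := ⟨n - 1, by omega⟩
        rw [hk, Nat.add_sub_cancel, pow_succ, mul_comm ((z - r) ^ k) (z - r),
          mul_div_mul_right _ _ (pow_ne_zero k hz')]
    rw [h4, dslope_of_ne _ hz, slope_def_field]
    field_simp
    ring

/-! ### the argument principle -/

theorem isCompact_RC (a b : ℂ) : IsCompact (RC a b) := by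
  unfold RC
  exact isCompact_Icc.reProdIm isCompact_Icc

theorem isPreconnected_RC (a b : ℂ) : IsPreconnected (RC a b) := by
  have h : Convex ℝ (RC a b) := by
    have h1 : Convex ℝ (re ⁻¹' Icc a.re b.re) :=
      Convex.linear_preimage (convex_Icc _ _) Complex.reLm
    have h2 : Convex ℝ (im ⁻¹' Icc a.im b.im) :=
      Convex.linear_preimage (convex_Icc _ _) Complex.imLm
    exact h1.inter h2
  exact h.isPreconnected

/-- The zeros in a rectangle are finite in number. -/
theorem finite_zeros {f : ℂ → ℂ} {a b : ℂ} (hf : AnalyticOnNhd ℂ f (RC a b))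
    (h0 : ∃ z ∈ RC a b, f z ≠ 0) : {z | z ∈ RC a b ∧ f z = 0}.Finite := by
  by_contra hinf
  obtain ⟨x, hx, hacc⟩ := Set.Infinite.exists_accPt_of_subset_isCompact hinf (isCompact_RC a b)
    (fun z hz => hz.1)
  rw [accPt_iff_frequently_nhdsNE] at hacc
  have h1 : ∃ᶠ z in 𝓝[≠] x, f z = 0 := hacc.mono (fun z hz => hz.2)
  have h2 := hf.eqOn_zero_of_preconnected_of_frequently_eq_zero (isPreconnected_RC a b) hx h1
  obtain ⟨z, hz, hz0⟩ := h0
  exact hz0 (h2 hz)

theorem order_ne_top {f : ℂ → ℂ} {a b : ℂ} (hf : AnalyticOnNhd ℂ f (RC a b))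
    (h0 : ∃ z ∈ RC a b, f z ≠ 0) {r : ℂ} (hr : r ∈ RC a b) : analyticOrderAt f r ≠ ⊤ := by
  intro h
  rw [analyticOrderAt_eq_top] at h
  have h2 := hf.eqOn_zero_of_preconnected_of_eventuallyEq_zero (isPreconnected_RC a b) hr h
  obtain ⟨z, hz, hz0⟩ := h0
  exact hz0 (h2 hz)

/-- Argument principle with a weight: `f` analytic on the closed rectangle, without zeros on the
boundary, `F` analytic on the closed rectangle. -/
theorem rect_arg {f F : ℂ → ℂ} {a b : ℂ} (h1 : a.re < b.re) (h2 : a.im < b.im)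
    (hf : AnalyticOnNhd ℂ f (RC a b)) (hF : AnalyticOnNhd ℂ F (RC a b))
    (hz : ∀ z ∈ RC a b, f z = 0 → z ∈ RO a b) :
    ∃ Z : Finset ℂ, (∀ z, z ∈ Z ↔ z ∈ RO a b ∧ f z = 0) ∧
      rectInt (fun z => F z * (deriv f z / f z)) a b =
        2 * Real.pi * I * ∑ r ∈ Z, (analyticOrderNatAt f r : ℂ) * F r := by
  have h0 : ∃ z ∈ RC a b, f z ≠ 0 := by
    refine ⟨a, mem_RC.2 ⟨⟨le_refl _, h1.le⟩, le_refl _, h2.le⟩, fun h => ?_⟩
    have := hz a (mem_RC.2 ⟨⟨le_refl _, h1.le⟩, le_refl _, h2.le⟩) h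
    exact lt_irrefl _ (mem_RO.1 this).1.1
  have hfin := finite_zeros hf h0
  refine ⟨hfin.toFinset, ?_, ?_⟩
  · intro z
    rw [Finite.mem_toFinset]
    constructor
    · exact fun h => ⟨hz z h.1 h.2, h.2⟩
    · exact fun h => ⟨RO_sub_RC h.1, h.2⟩
  set Z := hfin.toFinset with hZdef
  have hZ : ∀ z, z ∈ Z ↔ z ∈ RC a b ∧ f z = 0 := fun z => by
    rw [hZdef, Finite.mem_toFinset]
    rfl
  set H : ℂ → ℂ := fun z => F z * (deriv f z / f z) -
    ∑ r ∈ Z, (analyticOrderNatAt f r : ℂ) * F r * (1 / (z - r)) with hH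
  -- the local extension of `H`
  have hloc : ∀ x ∈ Z, ∃ h : ℂ → ℂ, AnalyticAt ℂ h x ∧ ∀ᶠ z in 𝓝[≠] x, H z = h z := by
    intro x hx
    have hxR := (hZ x).1 hx
    obtain ⟨h, hh, he⟩ := local_form (hf x hxR.1) (hF x hxR.1) (order_ne_top hf h0 hxR.1)
    refine ⟨fun z => h z - ∑ r ∈ Z.erase x, (analyticOrderNatAt f r : ℂ) * F r * (1 / (z - r)),
      ?_, ?_⟩
    · refine hh.sub (Finset.analyticAt_fun_sum _ (fun r hr => ?_))
      have hrx : x - r ≠ 0 := sub_ne_zero.2 (Finset.ne_of_mem_erase hr).symm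
      exact analyticAt_const.mul (analyticAt_const.div (analyticAt_id.sub analyticAt_const) hrx)
    · filter_upwards [he] with z hz1
      rw [← hz1, hH]
      simp only
      rw [← Finset.add_sum_erase Z _ hx]
      ring
  choose! h hh he using hloc
  set Ht : ℂ → ℂ := fun z => if z ∈ Z then h z z else H z with hHt
  have hcl : ∀ x, ∀ᶠ z in 𝓝[≠] x, z ∉ Z := by
    intro x
    rw [eventually_nhdsWithin_iff]
    have h3 : ∀ᶠ z in 𝓝 x, z ∉ ((Z.erase x : Finset ℂ) : Set ℂ) := by
      apply (Z.erase x).finite_toSet.isClosed.isOpen_compl.mem_nhds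
      simp
    filter_upwards [h3] with z hz3 hzx hzZ
    exact hz3 (Finset.mem_coe.2 (Finset.mem_erase.2 ⟨hzx, hzZ⟩))
  have hHtan : ∀ x ∈ RC a b, AnalyticAt ℂ Ht x := by
    intro x hx
    by_cases hxZ : x ∈ Z
    · refine (hh x hxZ).congr ?_
      have h3 : ∀ᶠ z in 𝓝[≠] x, h x z = Ht z := by
        filter_upwards [he x hxZ, hcl x] with z hz1 hz2
        rw [hHt]
        simp only
        rw [if_neg hz2, hz1]
      rw [eventually_nhdsWithin_iff] at h3
      filter_upwards [h3] with z hz3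
      by_cases hzx : z = x
      · rw [hzx, hHt]
        simp only
        rw [if_pos hxZ]
      · exact hz3 hzx
    · have hfx : f x ≠ 0 := fun h => hxZ ((hZ x).2 ⟨hx, h⟩)
      have h4 : AnalyticAt ℂ H x := by
        refine ((hF x hx).mul ((hf x hx).deriv.div (hf x hx) hfx)).sub
          (Finset.analyticAt_fun_sum _ (fun r hr => ?_))
        have hrx : x - r ≠ 0 := sub_ne_zero.2 (fun e => hxZ (e ▸ hr))
        exact analyticAt_const.mul (analyticAt_const.div (analyticAt_id.sub analyticAt_const) hrx)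
      refine h4.congr ?_
      have h5 : ∀ᶠ z in 𝓝 x, z ∉ (Z : Set ℂ) := by
        apply Z.finite_toSet.isClosed.isOpen_compl.mem_nhds
        simpa using hxZ
      filter_upwards [h5] with z hz5
      rw [hHt]
      simp only
      rw [if_neg (fun h => hz5 (Finset.mem_coe.2 h))]
  have hcauchy : rectInt Ht a b = 0 := by
    apply integral_boundary_rect_eq_zero_of_differentiableOn
    rw [uIcc_of_le h1.le, uIcc_of_le h2.le]
    exact fun x hx => (hHtan x hx).differentiableAt.differentiableWithinAt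
  have hZO : ∀ z ∈ Z, z ∈ RO a b := fun z hzZ => hz z ((hZ z).1 hzZ).1 ((hZ z).1 hzZ).2
  have hcongr : rectInt Ht a b = rectInt H a b := by
    apply rectInt_congr h1 h2
    intro z hzb
    rw [hHt]
    simp only
    rw [if_neg (fun h => hzb.2 (hZO z h))]
  have hcont1 : ContinuousOn (fun z => F z * (deriv f z / f z)) (RC a b \ RO a b) := by
    intro z hzb
    apply ContinuousAt.continuousWithinAt
    have hfz : f z ≠ 0 := fun h => hzb.2 (hz z hzb.1 h)
    exact ((hF z hzb.1).mul ((hf z hzb.1).deriv.div (hf z hzb.1) hfz)).continuousAt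
  have hcont2 : ∀ r ∈ Z, ContinuousOn (fun z => (analyticOrderNatAt f r : ℂ) * F r * (1 / (z - r)))
      (RC a b \ RO a b) := by
    intro r hr z hzb
    apply ContinuousAt.continuousWithinAt
    have hrx : z - r ≠ 0 := sub_ne_zero.2 (fun e => hzb.2 (e ▸ hZO r hr))
    exact continuousAt_const.mul (continuousAt_const.div (continuousAt_id.sub continuousAt_const) hrx)
  have hsum : rectInt H a b = rectInt (fun z => F z * (deriv f z / f z)) a b -
      ∑ r ∈ Z, rectInt (fun z => (analyticOrderNatAt f r : ℂ) * F r * (1 / (z - r))) a b := by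
    rw [← rectInt_sum h1 h2 Z hcont2, ← rectInt_sub h1 h2 hcont1]
    exact continuousOn_finsetSum _ hcont2
  have hfinal : ∑ r ∈ Z, rectInt (fun z => (analyticOrderNatAt f r : ℂ) * F r * (1 / (z - r))) a b =
      2 * Real.pi * I * ∑ r ∈ Z, (analyticOrderNatAt f r : ℂ) * F r := by
    rw [Finset.mul_sum]
    apply Finset.sum_congr rfl
    intro r hr
    rw [rectInt_const_mul, rectInt_inv (hZO r hr)]
    ring
  rw [← hfinal]
  rw [hcauchy] at hcongr
  rw [← hcongr] at hsum
  exact (sub_eq_zero.1 hsum.symm)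

end Pool.Agent.H72.ZS
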